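import Mathlib
import Pool.Graph.R_seed8.W830.RD.Stm
import Pool.Agent.H958.RO.Stm
import Pool.Agent.H958.RO.Ord

/-!
# Project RL: the exponential order of the dimension of sparse random graph orders
Definitions and exact statements of all parts.
`Om n`, `gle E`, `Pr p n Q`, `Rlz le k` are from the library module `Pool.Graph.R_seed8.W830.RD.Stm`,
`Rev`, `dimG` from `Pool.Agent.H958.RO.Stm`.
-/

set_option autoImplicit false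

namespace Pool.Agent.H958.RL

open Finset Filter Topology
open scoped Classical
open Pool.Agent.W830.RD (Om gle Pr Rlz)
open Pool.Agent.H958.RO (Rev dimG)

noncomputable section

/-! ## Probability tools -/

/-- COND: conditioning on the edges outside `S`. -/
def S_COND : Prop := ∀ (p η : ℝ) (n : ℕ) (S : Finset (Fin n × Fin n))
  (Q : Finset (Fin n × Fin n) → Finset (Fin n × Fin n) → Prop), 0 < p → p < 1 →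
  (∀ E1, E1 ⊆ Om n \ S → Pr p n (fun E => Q E1 (E ∩ S)) ≤ η) →
  Pr p n (fun E => Q (E \ S) (E ∩ S)) ≤ η

/-- The expectation. -/
def Ex (p : ℝ) (n : ℕ) (g : Finset (Fin n × Fin n) → ℝ) : ℝ :=
  ∑ E ∈ (Om n).powerset, g E * (p ^ E.card * (1 - p) ^ ((Om n).card - E.card))

/-- ES: the inequality of Efron and Stein. -/
def S_ES : Prop := ∀ (p D : ℝ) (n : ℕ) (S : Finset (Fin n × Fin n))
  (g : Finset (Fin n × Fin n) → ℝ), 0 < p → p < 1 → S ⊆ Om n → (∀ E, g E = g (E ∩ S)) →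
  (∀ E, ∀ e ∈ S, |g (insert e E) - g (E.erase e)| ≤ D) →
  Ex p n (fun E => (g E - Ex p n g) ^ 2) ≤ p * D ^ 2 * S.card

/-! ## Growth -/

/-- The edges of `E` with upper endpoint in `[s, t)`. -/
def seg {n : ℕ} (E : Finset (Fin n × Fin n)) (s t : ℕ) : Finset (Fin n × Fin n) :=
  E.filter (fun e => s ≤ (e.2 : ℕ) ∧ (e.2 : ℕ) < t)

/-- The vertices reachable from `F` by edges with upper endpoint in `[s, t)` (`F` included). -/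
def Wr {n : ℕ} (E : Finset (Fin n × Fin n)) (F : Finset (Fin n)) (s t : ℕ) : Finset (Fin n) :=
  univ.filter (fun v => ∃ u ∈ F, gle (seg E s t) u v)

/-- The number of vertices of `[s, t)` joined to a member of `F`. -/
def nb {n : ℕ} (E : Finset (Fin n × Fin n)) (F : Finset (Fin n)) (s t : ℕ) : ℕ :=
  (univ.filter (fun v : Fin n => s ≤ (v : ℕ) ∧ (v : ℕ) < t ∧ ∃ u ∈ F, (u, v) ∈ E)).card

/-- BLK: one block of the growth process. -/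
def S_BLK : Prop := ∀ (p f η : ℝ) (n s L : ℕ) (F : Finset (Fin n)), 0 < p → p < 1 → 0 < f →
  0 < η → η ≤ 1 / 2 → f ≤ (F.card : ℝ) → (∀ u ∈ F, (u : ℕ) < s) → s + L ≤ n → p * f ≤ η →
  Pr p n (fun E => (nb E F s (s + L) : ℝ) < (1 - 2 * η) * (L * p * f)) ≤
    Real.exp (-(η ^ 2 * (L * p * f) / 4))

/-- GROW: `J` blocks of the growth process. -/
def S_GROW : Prop := ∀ (p f η : ℝ) (n s L J : ℕ) (F : Finset (Fin n)), 0 < p → p < 1 → 0 < f →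
  0 < η → η ≤ 1 / 2 → f ≤ (F.card : ℝ) → (∀ u ∈ F, (u : ℕ) < s) → s + J * L ≤ n →
  p * (f * (1 + (1 - 2 * η) * (L * p)) ^ J) ≤ η →
  Pr p n (fun E => ((Wr E F s (s + J * L)).card : ℝ) < f * (1 + (1 - 2 * η) * (L * p)) ^ J) ≤
    J * Real.exp (-(η ^ 2 * (L * p * f) / 4))

/-! ## The first stage -/

/-- The vertices of `[s, t)` with exactly one neighbour in `T`, and this neighbour is in `S0`. -/
def prv {n : ℕ} (E : Finset (Fin n × Fin n)) (T S0 : Finset (Fin n)) (s t : ℕ) :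
    Finset (Fin n) :=
  univ.filter (fun v => s ≤ (v : ℕ) ∧ (v : ℕ) < t ∧
    ∃ u ∈ S0, T.filter (fun w => (w, v) ∈ E) = {u})

/-- PRIV: most members of a disjoint family of small sets have many private neighbours. -/
def S_PRIV : Prop := ∀ (p : ℝ) (n s d r : ℕ) (I : Finset (Fin n)) (Sf : Fin n → Finset (Fin n)),
  0 < p → p < 1 → I.Nonempty → (∀ i ∈ I, (Sf i).card = r) →
  (∀ i ∈ I, ∀ j ∈ I, i ≠ j → Disjoint (Sf i) (Sf j)) → (∀ i ∈ I, ∀ u ∈ Sf i, (u : ℕ) < s) →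
  s + d ≤ n → p * (r * I.card) ≤ 1 / 10 → 400 ≤ d * r * p →
  Pr p n (fun E => (I.card : ℝ) / 4 < ((I.filter (fun i =>
    ((prv E (I.biUnion Sf) (Sf i) s (s + d)).card : ℝ) < d * r * p / 2)).card : ℝ)) ≤
    200 * (d * r * p) / I.card

/-- At least half of the first `a` vertices have disjoint sets of descendants of size at least
`φ` below `a + 2 d`. -/
def Stg {n : ℕ} (E : Finset (Fin n × Fin n)) (a d φ : ℕ) : Prop :=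
  ∃ (A : Finset (Fin n)) (Ff : Fin n → Finset (Fin n)), (∀ x ∈ A, (x : ℕ) < a) ∧
    a ≤ 2 * A.card ∧ (∀ x ∈ A, φ ≤ (Ff x).card) ∧
    (∀ x ∈ A, ∀ y ∈ A, x ≠ y → Disjoint (Ff x) (Ff y)) ∧
    (∀ x ∈ A, ∀ v ∈ Ff x, (v : ℕ) < a + 2 * d ∧ gle (seg E 0 (a + 2 * d)) x v)

/-- STG: the first stage. -/
def S_STG : Prop := ∀ (p : ℝ) (n a d r φ : ℕ), 0 < p → p < 1 → 1 ≤ a → 1 ≤ r → a + 2 * d ≤ n →
  2 * (r : ℝ) ≤ d * p → 2 * (φ : ℝ) ≤ d * r * p → 400 ≤ d * p → p * (r * a) ≤ 1 / 10 →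
  Pr p n (fun E => ¬ Stg E a d φ) ≤ 1000 * (d * r * p) / a

/-! ## The two halves -/

/-- The lower part is good. -/
def Lo {n : ℕ} (E : Finset (Fin n × Fin n)) (a b N h : ℕ) : Prop :=
  ∃ A : Finset (Fin n), (∀ x ∈ A, (x : ℕ) < a) ∧ a ≤ 2 * A.card ∧
    ∀ X ⊆ A, X.card = b → N ≤ (Wr E X 0 h).card

/-- LOWR: the lower part is good with high probability. -/
def S_LOWR : Prop := ∀ (p η : ℝ) (n a d φ b N L J h : ℕ), 0 < p → p < 1 → 0 < η → η ≤ 1 / 2 →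
  1 ≤ b → 1 ≤ φ → a + 2 * d + J * L ≤ h → h ≤ n →
  p * (((b * φ : ℕ) : ℝ) * (1 + (1 - 2 * η) * (L * p)) ^ J) ≤ η →
  (N : ℝ) ≤ ((b * φ : ℕ) : ℝ) * (1 + (1 - 2 * η) * (L * p)) ^ J →
  Pr p n (fun E => ¬ Lo E a b N h) ≤ Pr p n (fun E => ¬ Stg E a d φ) +
    (a.choose b : ℝ) * (J * Real.exp (-(η ^ 2 * (L * p * ((b * φ : ℕ) : ℝ)) / 4)))

/-- The reflected edge set. -/
def rv {n : ℕ} (E : Finset (Fin n × Fin n)) : Finset (Fin n × Fin n) :=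
  E.image (fun e => (Fin.rev e.2, Fin.rev e.1))

/-- REFL: the reflection preserves probabilities. -/
def S_REFL : Prop := ∀ (p : ℝ) (n : ℕ) (Q : Finset (Fin n × Fin n) → Prop),
  Pr p n (fun E => Q (rv E)) = Pr p n Q

/-- Comparable pairs exist between all large sets. -/
def Mix {n : ℕ} (E : Finset (Fin n × Fin n)) (a b : ℕ) : Prop :=
  ∃ A B : Finset (Fin n), (∀ x ∈ A, (x : ℕ) < a) ∧ a ≤ 2 * A.card ∧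
    (∀ y ∈ B, n ≤ (y : ℕ) + a) ∧ a ≤ 2 * B.card ∧
    ∀ X ⊆ A, ∀ Y ⊆ B, X.card = b → Y.card = b → ∃ x ∈ X, ∃ y ∈ Y, gle E x y

/-- CROSS: the edges between the two halves. -/
def S_CROSS : Prop := ∀ (p : ℝ) (n a b N h : ℕ), 0 < p → p < 1 → 2 * h ≤ n → a ≤ h →
  Pr p n (fun E => ¬ Mix E a b) ≤ 2 * Pr p n (fun E => ¬ Lo E a b N h) +
    (a.choose b : ℝ) ^ 2 * (1 - p) ^ (N ^ 2)

/-- COMP: few comparable pairs. -/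
def S_COMP : Prop := ∀ (p : ℝ) (n a : ℕ), 0 < p → p < 1 → 1 ≤ a → 2 * a ≤ n →
  Pr p n (fun E => (a : ℝ) ^ 2 / 8 < ((univ.filter (fun q : Fin n × Fin n =>
    (q.1 : ℕ) < a ∧ n ≤ (q.2 : ℕ) + a ∧ gle E q.1 q.2)).card : ℝ)) ≤ 8 * p * (1 + p) ^ n

/-- DIML: lower bound for the size of a realiser. -/
def S_DIML : Prop := ∀ (n k b : ℕ) (E : Finset (Fin n × Fin n)) (A B : Finset (Fin n)),
  Rlz (gle E) k →
  (∀ X ⊆ A, ∀ Y ⊆ B, X.card = b → Y.card = b → ∃ x ∈ X, ∃ y ∈ Y, gle E x y) →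
  ((A ×ˢ B).filter (fun q => ¬ gle E q.1 q.2)).card ≤ k * (b * (A.card + B.card))

/-! ## Numerical part -/

/-- NUMG: the growth factor. -/
def S_NUMG : Prop := ∀ (ε c : ℝ) (n a d h : ℕ), 0 < ε → ε ≤ 1 / 2 → 1 ≤ c → c ≤ ε / 40 * n →
  2 * h ≤ n → n ≤ 2 * h + 1 → a + 2 * d ≤ h → (c / n) * a ≤ 1 / 10 → (d : ℝ) ≤ ε / 40 * n →
  ∃ L J : ℕ, 1 ≤ L ∧ a + 2 * d + J * L ≤ h ∧ ε / 40 ≤ L * (c / n) ∧ L * (c / n) ≤ 2 * (ε / 40) ∧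
    Real.exp ((1 - ε / 4) * c - 2) ≤ ((1 + (1 - 2 * (ε / 40)) * (L * (c / n))) ^ J) ^ 2 ∧
    (1 + (1 - 2 * (ε / 40)) * (L * (c / n))) ^ J ≤ Real.exp (c / 2)

/-- NUM1: choice of the parameters. -/
def S_NUM1 : Prop := ∀ ε : ℝ, 0 < ε → ε ≤ 1 / 2 → ∃ c0 η : ℝ, 1 ≤ c0 ∧ 0 < η ∧ η ≤ 1 / 2 ∧
  ∃ N0 : ℕ, ∀ n : ℕ, N0 ≤ n → ∀ c : ℝ, c0 ≤ c → c ≤ (1 - ε) * Real.log n →
  ∃ a d r φ b N L J h K : ℕ, 1 ≤ a ∧ 1 ≤ r ∧ 1 ≤ φ ∧ 1 ≤ b ∧ 2 * a ≤ n ∧ a ≤ h ∧ 2 * h ≤ n ∧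
    a + 2 * d + J * L ≤ h ∧ 2 * (r : ℝ) ≤ d * (c / n) ∧ 2 * (φ : ℝ) ≤ d * r * (c / n) ∧
    400 ≤ d * (c / n) ∧ (c / n) * (r * a) ≤ 1 / 10 ∧
    (c / n) * (((b * φ : ℕ) : ℝ) * (1 + (1 - 2 * η) * (L * (c / n))) ^ J) ≤ η ∧
    (N : ℝ) ≤ ((b * φ : ℕ) : ℝ) * (1 + (1 - 2 * η) * (L * (c / n))) ^ J ∧
    Real.exp ((1 - ε) * c) < K + 1 ∧ 16 * K * b < a ∧
    (n : ℝ) ^ (1 / 2 : ℝ) ≤ a ∧ (n : ℝ) ^ (ε / 4) ≤ b ∧ (d : ℝ) * r * (c / n) ≤ c ^ 2 ∧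
    (J : ℝ) ≤ n ∧ (a.choose b : ℝ) ≤ Real.exp (b * (5 + c)) ∧
    b * (2 * c + 10) ≤ η ^ 2 * (L * (c / n) * ((b * φ : ℕ) : ℝ)) / 4 ∧
    b * (3 * c + 15) ≤ (c / n) * (N : ℝ) ^ 2

/-- NUM2: the total error tends to zero. -/
def S_NUM2 : Prop := ∀ ε η' : ℝ, 0 < ε → ε ≤ 1 / 2 → 0 < η' → ∃ N0 : ℕ, ∀ n : ℕ, N0 ≤ n →
  ∀ (c η : ℝ) (a d r φ b N L J : ℕ), 1 ≤ c → c ≤ (1 - ε) * Real.log n → 1 ≤ b →
    (n : ℝ) ^ (1 / 2 : ℝ) ≤ a → (n : ℝ) ^ (ε / 4) ≤ b → (d : ℝ) * r * (c / n) ≤ c ^ 2 →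
    (J : ℝ) ≤ n → (a.choose b : ℝ) ≤ Real.exp (b * (5 + c)) →
    b * (2 * c + 10) ≤ η ^ 2 * (L * (c / n) * ((b * φ : ℕ) : ℝ)) / 4 →
    b * (3 * c + 15) ≤ (c / n) * (N : ℝ) ^ 2 →
    c < n ∧ 2 * (1000 * ((d : ℝ) * r * (c / n)) / a + (a.choose b : ℝ) *
      (J * Real.exp (-(η ^ 2 * (L * (c / n) * ((b * φ : ℕ) : ℝ)) / 4)))) +
      (a.choose b : ℝ) ^ 2 * (1 - c / n) ^ (N ^ 2) + 8 * (c / n) * (1 + c / n) ^ n ≤ η'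

/-- LB: the lower bound for `c ≤ (1 - ε) log n`. -/
def S_LB : Prop := ∀ ε : ℝ, 0 < ε → ε ≤ 1 / 2 → ∃ c0 : ℝ, 1 ≤ c0 ∧ ∀ η' : ℝ, 0 < η' →
  ∃ N0 : ℕ, ∀ n : ℕ, N0 ≤ n → ∀ c : ℝ, c0 ≤ c → c ≤ (1 - ε) * Real.log n →
  Pr (c / n) n (fun E => ∃ k : ℕ, (k : ℝ) ≤ Real.exp ((1 - ε) * c) ∧ Rlz (gle E) k) ≤ η'

/-- RESTR: restriction to the first `m` vertices. -/
def S_RESTR : Prop := ∀ (p : ℝ) (m n K : ℕ), 0 < p → p < 1 → m ≤ n →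
  Pr p n (fun E => ∃ k ≤ K, Rlz (gle E) k) ≤ Pr p m (fun E => ∃ k ≤ K, Rlz (gle E) k)

/-- LBALL: the lower bound for `c ≤ log n`. -/
def S_LBALL : Prop := ∀ ε : ℝ, 0 < ε → ε ≤ 1 / 2 → ∃ c0 : ℝ, 1 ≤ c0 ∧ ∀ η' : ℝ, 0 < η' →
  ∃ N0 : ℕ, ∀ n : ℕ, N0 ≤ n → ∀ c : ℝ, c0 ≤ c → c ≤ Real.log n →
  Pr (c / n) n (fun E => ∃ k : ℕ, (k : ℝ) ≤ Real.exp ((1 - ε) * c) ∧ Rlz (gle E) k) ≤ η'

/-- DIAG: one exponent function for all sequences. -/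
def S_DIAG : Prop := ∀ Φ : ℕ → ℝ → ℝ → ℝ,
  (∀ η' : ℝ, 0 < η' → ∃ N0 : ℕ, ∀ n : ℕ, N0 ≤ n → ∀ c : ℝ, 1 ≤ c → c ≤ Real.log n →
    Φ n c (1 / 2) ≤ η') →
  (∀ ε : ℝ, 0 < ε → ε ≤ 1 / 2 → ∃ c0 : ℝ, 1 ≤ c0 ∧ ∀ η' : ℝ, 0 < η' → ∃ N0 : ℕ, ∀ n : ℕ,
    N0 ≤ n → ∀ c : ℝ, c0 ≤ c → c ≤ Real.log n → Φ n c ((1 - ε) * c) ≤ η') →
  ∃ β : ℝ → ℝ, (∀ c, 1 ≤ c → 0 < β c) ∧ Tendsto β atTop (𝓝 1) ∧
    ∀ c : ℕ → ℝ, (∀ᶠ n in atTop, 1 ≤ c n ∧ c n ≤ Real.log n) → ∀ η' : ℝ, 0 < η' →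
      ∀ᶠ n in atTop, Φ n (c n) (β (c n) * c n) ≤ η'

/-! ## Upper bound -/

/-- UTAIL: large up-sets are unlikely. -/
def S_UTAIL : Prop := ∀ (p : ℝ) (n r m : ℕ) (x : Fin n), 0 < p → p < 1 → 1 ≤ r → 1 ≤ m →
  Pr p n (fun E => m ≤ (univ.filter (fun u => gle E x u)).card) ≤
    (r.factorial : ℝ) * (1 + r * p) ^ n / (m : ℝ) ^ r

/-- UGREEDY: few monotone functions reverse all pairs if all up-sets are small. -/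
def S_UGREEDY : Prop := ∀ (n K k : ℕ) (E : Finset (Fin n × Fin n)), E ⊆ Om n →
  (∀ x, (univ.filter (fun u => gle E x u)).card ≤ K) →
  ((K : ℝ) + 1) * (2 * Real.log n) < k → Rev (gle E) (fun x y => ¬ gle E x y) k

/-- UP: the upper bound. -/
def S_UP : Prop := ∀ η' : ℝ, 0 < η' → ∃ N0 : ℕ, ∀ n : ℕ, N0 ≤ n → ∀ c : ℝ, 1 ≤ c →
  c ≤ Real.log n →
  Pr (c / n) n (fun E => 100 * Real.exp c * (Real.log n) ^ 2 < (dimG E : ℝ)) ≤ η'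

end

end Pool.Agent.H958.RL
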