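import Mathlib
import Pool.Agent.H958.RL.Stm

/-!
# Project RL, second part: the upper bound for all sequences
-/

set_option autoImplicit false

namespace Pool.Agent.H958.RL

open Finset Filter Topology
open scoped Classical
open Pool.Agent.W830.RD (Om gle Pr Rlz)
open Pool.Agent.H958.RO (Rev dimG GG res IncOn dg Forest Near KIn Bad NN Star blk)

noncomputable section

/-! ## Order part: a theorem of Füredi and Kahn -/

/-- COL: a colouring with `K` colours such that every small set of a sparse family contains at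
most `s` elements of each colour (from the symmetric local lemma). -/
def S_COL : Prop := ∀ (α : Type) [Fintype α] (K s : ℕ) (X : Finset α) (U : α → Finset α),
  1 ≤ K → (∀ x ∈ X, (U x).card ≤ K) → (∀ u, (X.filter (fun x => u ∈ U x)).card ≤ K) →
  4 * K ^ 3 ≤ (s + 1).factorial →
  ∃ χ : α → Fin K, ∀ x ∈ X, ∀ j, ((U x).filter (fun u => χ u = j)).card ≤ s

/-- HCOL: a colouring which is injective on all sets of the family. -/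
def S_HCOL : Prop := ∀ (α : Type) [Fintype α] (K : ℕ) (X : Finset α) (U : α → Finset α),
  (∀ x ∈ X, (U x).card ≤ K) → (∀ u, (X.filter (fun x => u ∈ U x)).card ≤ K) →
  ∃ h : α → Fin (K ^ 2 + 1), ∀ x ∈ X, ∀ u ∈ U x, ∀ v ∈ U x, h u = h v → u = v

/-- PERM: few orders of `m` points such that every point is below every small set not containing
it. -/
def S_PERM : Prop := ∀ m s t : ℕ, (s + 1) ^ 2 * (Nat.clog 2 m + 1) ≤ t →
  ∃ σ : Fin t → Fin m → ℕ, (∀ i, Function.Injective (σ i)) ∧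
    ∀ (a : Fin m) (H : Finset (Fin m)), H.card ≤ s → a ∉ H → ∃ i, ∀ b ∈ H, σ i a < σ i b

/-- The size of the colour classes. -/
def fs (K : ℕ) : ℕ := 3 * Nat.clog 2 K + 2

/-- The number of monotone functions. -/
def FK (K : ℕ) : ℕ := K * (2 * ((fs K + 1) ^ 2 * (Nat.clog 2 (K ^ 2 + 1) + 1)))

/-- FK: elements with bounded up-sets whose members have bounded down-sets. -/
def S_FK : Prop := ∀ (α : Type) [Fintype α] (le : α → α → Prop) (K : ℕ) (X : α → Prop),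
  (∀ x, le x x) → (∀ x y z, le x y → le y z → le x z) →
  (∀ x, X x → (univ.filter (fun u => le x u)).card ≤ K) →
  (∀ x, X x → ∀ u, le x u → (univ.filter (fun w => le w u)).card ≤ K) →
  Rev le (fun x y => X x ∧ ¬ le x y) (FK K)

/-- FKNUM: numerics. -/
def S_FKNUM : Prop := ∀ ε : ℝ, 0 < ε → ε ≤ 1 / 2 → ∃ c0 : ℝ, 1 ≤ c0 ∧ ∀ c : ℝ, c0 ≤ c →
  ((2 * FK ⌈Real.exp ((1 + ε / 2) * c)⌉₊ + 10 : ℕ) : ℝ) ≤ Real.exp ((1 + ε) * c)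

/-! ## Deterministic part -/

/-- Vertices with a large up-set or a large down-set. -/
def BK {n : ℕ} (E : Finset (Fin n × Fin n)) (K : ℕ) (b : Fin n) : Prop :=
  K < (univ.filter (fun u => gle E b u)).card ∨ K < (univ.filter (fun u => gle E u b)).card

/-- The vertices above a vertex which is below a member of `BK`. -/
def NK {n : ℕ} (E : Finset (Fin n × Fin n)) (K : ℕ) : Finset (Fin n) :=
  univ.filter (fun w => ∃ x b, BK E K b ∧ gle E x w ∧ gle E x b)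

/-- DETU: the deterministic part. -/
def S_DETU : Prop := ∀ (n K T : ℕ) (κ : ℝ) (E : Finset (Fin n × Fin n)), E ⊆ Om n →
  1 ≤ T → ((NK E K).card : ℝ) ≤ κ * n → Star T (18 * T + 2) κ E → Rlz (gle E) (2 * FK K + 10)

/-- The vertices at distance at most `R` from `w`. -/
def Bl {n : ℕ} (E : Finset (Fin n × Fin n)) (R : ℕ) (w : Fin n) : Finset (Fin n) :=
  univ.filter (fun v => ∃ p : (GG E).Walk w v, p.length ≤ R)

/-- The number of vertices which belong to `NK` for local reasons. -/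
def gl {n : ℕ} (E : Finset (Fin n × Fin n)) (K D R : ℕ) : ℕ :=
  (univ.filter (fun w : Fin n => (∀ v ∈ Bl E R w, dg E univ v ≤ D) ∧
    w ∈ NK (res E (Bl E R w)) K)).card

/-- NLOC: members of `NK` are near bad vertices or belong to `NK` for local reasons. -/
def S_NLOC : Prop := ∀ (n l D K : ℕ) (E : Finset (Fin n × Fin n)), E ⊆ Om n → 1 ≤ l →
  (NK E K).card ≤ (NN E l D (3 * l)).card + gl E K D (3 * l)

/-- GLE: trivial comparison. -/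
def S_GLE : Prop := ∀ (n K D R : ℕ) (E : Finset (Fin n × Fin n)), gl E K D R ≤ (NK E K).card

/-- GDIFF: the effect of one edge. -/
def S_GDIFF : Prop := ∀ (n K D R : ℕ) (E : Finset (Fin n × Fin n)) (e : Fin n × Fin n),
  |((gl (insert e E) K D R : ℕ) : ℝ) - ((gl (E.erase e) K D R : ℕ) : ℝ)| ≤
    4 * ((D : ℝ) + 1) ^ R

/-! ## Probability part -/

/-- MONO: monotonicity in `p`. -/
def S_MONO : Prop := ∀ (p p' : ℝ) (n : ℕ) (Q : Finset (Fin n × Fin n) → Prop), 0 < p → p ≤ p' →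
  p' < 1 → (∀ E E', E ⊆ E' → E' ⊆ Om n → Q E → Q E') → Pr p n Q ≤ Pr p' n Q

/-- GCONC: concentration. -/
def S_GCONC : Prop := ∀ (p t : ℝ) (n K D R : ℕ), 0 < p → p < 1 → 0 < t →
  Pr p n (fun E => Ex p n (fun E => ((gl E K D R : ℕ) : ℝ)) + t < ((gl E K D R : ℕ) : ℝ)) ≤
    p * (4 * ((D : ℝ) + 1) ^ R) ^ 2 * (n : ℝ) ^ 2 / t ^ 2

/-- MOM: moments of the size of an up-set. -/
def S_MOM : Prop := ∀ (p : ℝ) (n r : ℕ) (x : Fin n), 0 < p → p < 1 → 1 ≤ r →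
  Ex p n (fun E => ((univ.filter (fun u => gle E x u)).card : ℝ) ^ r) ≤
    (r.factorial : ℝ) * (1 + r * p) ^ n

/-- EXREFL: the reflection preserves expectations. -/
def S_EXREFL : Prop := ∀ (p : ℝ) (n : ℕ) (g : Finset (Fin n × Fin n) → ℝ),
  Ex p n (fun E => g (rv E)) = Ex p n g

/-- EN: the expected size of `NK`. -/
def S_EN : Prop := ∀ (p lam δ : ℝ) (n K r : ℕ), 0 < p → p < 1 → 0 < lam → 1 ≤ K → 1 ≤ r →
  ((r + 1).factorial : ℝ) * (1 + ((r + 1 : ℕ) : ℝ) * p) ^ n / (K : ℝ) ^ r ≤ δ →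
  Ex p n (fun E => ((NK E K).card : ℝ)) ≤
    n * (δ + (lam * δ + lam⁻¹ * (6 * (1 + 3 * p) ^ n)) / 2)

/-- ENB: the expected size of `NK` is tiny. -/
def S_ENB : Prop := ∀ ε A : ℝ, 0 < ε → 0 < A → ∃ c0 : ℝ, 1 ≤ c0 ∧ ∀ (c : ℝ) (n : ℕ), c0 ≤ c →
  c < n → Ex (c / n) n (fun E => ((NK E ⌈Real.exp ((1 + ε) * c)⌉₊).card : ℝ)) ≤
    n * Real.exp (-(A * c ^ 2))

/-- SMALLU: `NK` is small with high probability. -/
def S_SMALLU : Prop := ∀ ε A : ℝ, 0 < ε → 0 < A → ∃ c0 : ℝ, 1 ≤ c0 ∧ ∀ η' : ℝ, 0 < η' →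
  ∃ N0 : ℕ, ∀ n : ℕ, N0 ≤ n → ∀ c : ℝ, c0 ≤ c → c ≤ Real.log n →
  Pr (c / n) n (fun E => Real.exp (-(A * c ^ 2)) * n <
    ((NK E ⌈Real.exp ((1 + ε) * c)⌉₊).card : ℝ)) ≤ η'

/-- STARU: no small dense sets, uniformly. -/
def S_STARU : Prop := ∃ A : ℝ, 0 < A ∧ ∀ η' : ℝ, 0 < η' → ∃ N0 : ℕ, ∀ n : ℕ, N0 ≤ n →
  ∀ c : ℝ, 1 ≤ c → c ≤ (Real.log (Real.log n)) ^ 2 → ∃ T : ℕ, 1 ≤ T ∧
  Pr (c / n) n (fun E => ¬ Star T (18 * T + 2) (Real.exp (-(A * c ^ 2))) E) ≤ η'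

/-- UPMID: the upper bound for `c ≤ (log log n) ^ 2`. -/
def S_UPMID : Prop := ∀ ε : ℝ, 0 < ε → ε ≤ 1 / 2 → ∃ c0 : ℝ, 1 ≤ c0 ∧ ∀ η' : ℝ, 0 < η' →
  ∃ N0 : ℕ, ∀ n : ℕ, N0 ≤ n → ∀ c : ℝ, c0 ≤ c → c ≤ (Real.log (Real.log n)) ^ 2 →
  Pr (c / n) n (fun E => Real.exp ((1 + ε) * c) < (dimG E : ℝ)) ≤ η'

/-- UPALL: the upper bound for all large `c`. -/
def S_UPALL : Prop := ∀ ε : ℝ, 0 < ε → ε ≤ 1 / 2 → ∃ c0 : ℝ, 1 ≤ c0 ∧ ∀ η' : ℝ, 0 < η' →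
  ∃ N0 : ℕ, ∀ n : ℕ, N0 ≤ n → ∀ c : ℝ, c0 ≤ c → c ≤ Real.log n →
  Pr (c / n) n (fun E => Real.exp ((1 + ε) * c) < (dimG E : ℝ)) ≤ η'

/-- UPSM: boundedness of the dimension, uniformly for bounded `c`. -/
def S_UPSM : Prop := ∀ C1 : ℝ, 1 ≤ C1 → ∃ M : ℝ, 0 < M ∧ ∀ η' : ℝ, 0 < η' →
  ∃ N0 : ℕ, ∀ n : ℕ, N0 ≤ n → ∀ c : ℝ, 1 ≤ c → c ≤ C1 →
  Pr (c / n) n (fun E => Real.exp M < (dimG E : ℝ)) ≤ η'

/-- DIAGU: one exponent function for all sequences, upper bound. -/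
def S_DIAGU : Prop := ∀ Φ : ℕ → ℝ → ℝ → ℝ,
  (∀ (n : ℕ) (c y y' : ℝ), 1 ≤ c → c ≤ Real.log n → y ≤ y' → Φ n c y' ≤ Φ n c y) →
  (∀ C1 : ℝ, 1 ≤ C1 → ∃ M : ℝ, 0 < M ∧ ∀ η' : ℝ, 0 < η' → ∃ N0 : ℕ, ∀ n : ℕ, N0 ≤ n →
    ∀ c : ℝ, 1 ≤ c → c ≤ C1 → c ≤ Real.log n → Φ n c M ≤ η') →
  (∀ ε : ℝ, 0 < ε → ε ≤ 1 / 2 → ∃ c0 : ℝ, 1 ≤ c0 ∧ ∀ η' : ℝ, 0 < η' → ∃ N0 : ℕ, ∀ n : ℕ,
    N0 ≤ n → ∀ c : ℝ, c0 ≤ c → c ≤ Real.log n → Φ n c ((1 + ε) * c) ≤ η') →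
  ∃ γ : ℝ → ℝ, (∀ c, 1 ≤ c → 0 < γ c) ∧ Tendsto γ atTop (𝓝 1) ∧
    ∀ c : ℕ → ℝ, (∀ᶠ n in atTop, 1 ≤ c n ∧ c n ≤ Real.log n) → ∀ η' : ℝ, 0 < η' →
      ∀ᶠ n in atTop, Φ n (c n) (γ (c n) * c n) ≤ η'

end

end Pool.Agent.H958.RL
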