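import Mathlib
import Pool.Agent.H958.RL.Stm
import Pool.Graph.R_seed8.W657.RD.PBas

/-!
# Project RL: assembly of the lower bound
-/

set_option autoImplicit false

namespace Pool.Agent.H958.RL

open Finset Filter Topology
open scoped Classical
open Pool.Agent.W830.RD (Om gle Pr Rlz S_PBAS)
open Pool.Agent.H958.RO (Rev dimG)

theorem card_lt_le {n a : ℕ} (A : Finset (Fin n)) (h : ∀ x ∈ A, (x : ℕ) < a) : A.card ≤ a := by
  have h1 : (A.image (fun x : Fin n => (x : ℕ))) ⊆ Finset.range a := by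
    intro i hi
    rw [mem_image] at hi
    obtain ⟨x, hx, rfl⟩ := hi
    exact Finset.mem_range.2 (h x hx)
  have h2 := Finset.card_le_card h1
  rw [Finset.card_image_of_injective _ Fin.val_injective, Finset.card_range] at h2
  exact h2

theorem card_ge_le {n a : ℕ} (A : Finset (Fin n)) (h : ∀ x ∈ A, n ≤ (x : ℕ) + a) :
    A.card ≤ a := by
  have h1 : (A.image (fun x : Fin n => n - 1 - (x : ℕ))) ⊆ Finset.range a := by
    intro i hi
    rw [mem_image] at hi
    obtain ⟨x, hx, rfl⟩ := hi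
    have h3 := h x hx
    have h4 := x.2
    rw [Finset.mem_range]
    omega
  have h2 := Finset.card_le_card h1
  rw [Finset.card_image_of_injOn, Finset.card_range] at h2
  · exact h2
  · intro x _ y _ hxy
    have h3 := x.2
    have h4 := y.2
    apply Fin.ext
    have : n - 1 - (x : ℕ) = n - 1 - (y : ℕ) := hxy
    omega

theorem lb_det (hD : S_DIML) {n a b k K : ℕ} {E : Finset (Fin n × Fin n)}
    (ha : 1 ≤ a) (hk : k ≤ K) (hKb : 16 * K * b < a) (hR : Rlz (gle E) k) (hM : Mix E a b)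
    (hC : ((univ.filter (fun q : Fin n × Fin n => (q.1 : ℕ) < a ∧ n ≤ (q.2 : ℕ) + a ∧
      gle E q.1 q.2)).card : ℝ) ≤ (a : ℝ) ^ 2 / 8) : False := by
  obtain ⟨A, B, hA, hA2, hB, hB2, hXY⟩ := hM
  have h1 := hD n k b E A B hR hXY
  have hAc := card_lt_le A hA
  have hBc := card_ge_le B hB
  have h2 : (A ×ˢ B).card ≤ ((A ×ˢ B).filter (fun q => ¬ gle E q.1 q.2)).card +
      (univ.filter (fun q : Fin n × Fin n => (q.1 : ℕ) < a ∧ n ≤ (q.2 : ℕ) + a ∧
        gle E q.1 q.2)).card := by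
    rw [← Finset.card_filter_add_card_filter_not (s := A ×ˢ B) (fun q => ¬ gle E q.1 q.2)]
    apply Nat.add_le_add_left
    apply Finset.card_le_card
    intro q hq
    rw [mem_filter, mem_product] at hq
    rw [mem_filter]
    exact ⟨mem_univ _, hA _ hq.1.1, hB _ hq.1.2, not_not.1 hq.2⟩
  rw [Finset.card_product] at h2
  have h3 : k * (b * (A.card + B.card)) ≤ K * (b * (a + a)) :=
    Nat.mul_le_mul hk (Nat.mul_le_mul_left b (Nat.add_le_add hAc hBc))
  have h4 : (A.card : ℝ) * B.card ≤ (K : ℝ) * (b * (a + a)) + (a : ℝ) ^ 2 / 8 := by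
    have h5 : ((A.card * B.card : ℕ) : ℝ) ≤
        ((K * (b * (a + a)) : ℕ) : ℝ) + (a : ℝ) ^ 2 / 8 := by
      have h6 : ((A.card * B.card : ℕ) : ℝ) ≤
          ((((A ×ˢ B).filter (fun q => ¬ gle E q.1 q.2)).card : ℕ) : ℝ) +
          ((univ.filter (fun q : Fin n × Fin n => (q.1 : ℕ) < a ∧ n ≤ (q.2 : ℕ) + a ∧
            gle E q.1 q.2)).card : ℝ) := by exact_mod_cast h2
      have h7 : ((((A ×ˢ B).filter (fun q => ¬ gle E q.1 q.2)).card : ℕ) : ℝ) ≤
          ((K * (b * (a + a)) : ℕ) : ℝ) := by exact_mod_cast h1.trans h3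
      linarith
    push_cast at h5
    exact h5
  have h8 : (a : ℝ) ≤ 2 * A.card := by exact_mod_cast hA2
  have h9 : (a : ℝ) ≤ 2 * B.card := by exact_mod_cast hB2
  have h10 : (16 : ℝ) * K * b < a := by exact_mod_cast hKb
  have h11 : (0 : ℝ) < a := by exact_mod_cast ha
  nlinarith [mul_le_mul h8 h9 h11.le (by positivity : (0 : ℝ) ≤ 2 * A.card),
    mul_lt_mul_of_pos_left h10 h11]

theorem lb_main (hN1 : S_NUM1) (hN2 : S_NUM2) (hSTG : S_STG) (hLOWR : S_LOWR)
    (hCROSS : S_CROSS) (hCOMP : S_COMP) (hDIML : S_DIML) : S_LB := by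
  intro ε hε hε2
  obtain ⟨c0, η, hc0, hη, hη2, N0, hN⟩ := hN1 ε hε hε2
  refine ⟨c0, hc0, fun η' hη' => ?_⟩
  obtain ⟨N1, hN1'⟩ := hN2 ε η' hε hε2 hη'
  refine ⟨max N0 N1, fun n hn c hc hcn => ?_⟩
  obtain ⟨a, d, r, φ, b, N, L, J, h, K, p1, p2, p3, p4, p5, p6, p7, p8, p9, p10, p11, p12, p13,
    p14, p15, p16, p17, p18, p19, p20, p21, p22, p23⟩ := hN n (le_of_max_le_left hn) c hc hcn
  obtain ⟨q1, q2⟩ := hN1' n (le_of_max_le_right hn) c η a d r φ b N L J (hc0.trans hc) hcn p4 p17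
    p18 p19 p20 p21 p22 p23
  have hcpos : 0 < c := by linarith
  have hn0 : (0 : ℝ) < n := by linarith
  have hp0 : 0 < c / n := div_pos hcpos hn0
  have hp1 : c / n < 1 := (div_lt_one hn0).2 q1
  obtain ⟨b1, b2, b3, b4, b5, b6⟩ := Pool.Agent.W657.RD.PBas.main (c / n) n hp0 hp1
  have hstg := hSTG (c / n) n a d r φ hp0 hp1 p1 p2
    (by
      have : a + 2 * d ≤ h := by
        have := Nat.zero_le (J * L)
        omega
      omega) p9 p10 p11 p12
  have hlowr := hLOWR (c / n) η n a d φ b N L J h hp0 hp1 hη hη2 p4 p3 p8 (by omega) p13 p14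
  have hcross := hCROSS (c / n) n a b N h hp0 hp1 p7 p6
  have hcomp := hCOMP (c / n) n a hp0 hp1 p1 p5
  have hmain : Pr (c / n) n (fun E => ∃ k : ℕ, (k : ℝ) ≤ Real.exp ((1 - ε) * c) ∧
      Rlz (gle E) k) ≤ Pr (c / n) n (fun E => ¬ Mix E a b) +
      Pr (c / n) n (fun E => (a : ℝ) ^ 2 / 8 < ((univ.filter (fun q : Fin n × Fin n =>
        (q.1 : ℕ) < a ∧ n ≤ (q.2 : ℕ) + a ∧ gle E q.1 q.2)).card : ℝ)) := by
    refine (b3 _ _ ?_).trans (b4 _ _)
    rintro E hE ⟨k, hk, hR⟩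
    by_contra hcon
    push Not at hcon
    obtain ⟨hM, hC⟩ := hcon
    have hkK : k ≤ K := by
      have : (k : ℝ) < (K : ℝ) + 1 := hk.trans_lt p15
      have h' : k < K + 1 := by exact_mod_cast this
      omega
    exact lb_det hDIML p1 hkK p16 hR hM hC
  have hch : (0 : ℝ) ≤ (a.choose b : ℝ) := Nat.cast_nonneg _
  linarith

end Pool.Agent.H958.RL
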