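import Mathlib
import Pool.Agent.H958.RL.Stm
import Pool.Agent.H958.RL.Lb
import Pool.Agent.H127.RL.Cond
import Pool.Agent.H397.RL.Es
import Pool.Agent.H764.RL.Blk
import Pool.Agent.H671.RL.Grow
import Pool.Agent.H947.RL.Priv
import Pool.Agent.H357.RL.Stg
import Pool.Agent.H549.RL.Lowr
import Pool.Agent.H331.RL.Refl
import Pool.Agent.H23.RL.Cross
import Pool.Agent.H695.RL.Comp
import Pool.Agent.H729.RL.Diml
import Pool.Agent.H349.RL.NumG
import Pool.Agent.H52.RL.Num1
import Pool.Agent.H706.RL.Num2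
import Pool.Agent.H703.RL.Restr
import Pool.Agent.H903.RL.LbAll
import Pool.Agent.H120.RL.Diag
import Pool.Agent.H863.RL.Utail
import Pool.Agent.H88.RL.Ugreedy
import Pool.Agent.H396.RL.Up

/-!
# Project RL: the first part, assembled
-/

set_option autoImplicit false

namespace Pool.Agent.H958.RL

theorem lb_all : S_LBALL := by
  have hCOND : S_COND := Pool.Agent.H127.RL.Cond.main
  have hGROW : S_GROW := Pool.Agent.H671.RL.Grow.main hCOND Pool.Agent.H764.RL.Blk.main
  have hPRIV : S_PRIV := Pool.Agent.H947.RL.Priv.main Pool.Agent.H397.RL.Es.main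
  have hSTG : S_STG := Pool.Agent.H357.RL.Stg.main hPRIV hCOND
  have hLOWR : S_LOWR := Pool.Agent.H549.RL.Lowr.main hCOND hGROW
  have hCROSS : S_CROSS := Pool.Agent.H23.RL.Cross.main hCOND Pool.Agent.H331.RL.Refl.main
  have hN1 : S_NUM1 := Pool.Agent.H52.RL.Num1.main Pool.Agent.H349.RL.NumG.main
  have hLB : S_LB := lb_main hN1 Pool.Agent.H706.RL.Num2.main hSTG hLOWR hCROSS
    Pool.Agent.H695.RL.Comp.main Pool.Agent.H729.RL.Diml.main
  exact Pool.Agent.H903.RL.LbAll.main hLB Pool.Agent.H703.RL.Restr.main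

theorem up_log : S_UP :=
  Pool.Agent.H396.RL.Up.main Pool.Agent.H863.RL.Utail.main Pool.Agent.H88.RL.Ugreedy.main

end Pool.Agent.H958.RL
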