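import Mathlib
import Pool.Agent.H958.RL.Stm2
import Pool.Agent.H958.RO.Ord
import Pool.Agent.H958.RO.Det

/-!
# Project RL: the deterministic part of the upper bound
-/

set_option autoImplicit false

namespace Pool.Agent.H958.RL

open Finset
open scoped Classical
open Pool.Agent.W830.RD (Om gle Pr Rlz)
open Pool.Agent.H958.RO

theorem gle_main : S_GLE := by
  intro n K D R E
  apply Finset.card_le_card
  intro w hw
  simp only [mem_filter, mem_univ, true_and] at hw
  obtain ⟨-, hw⟩ := hw
  simp only [NK, mem_filter, mem_univ, true_and] at hw ⊢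
  obtain ⟨x, b, hb, h1, h2⟩ := hw
  refine ⟨x, b, ?_, gle_mono (Finset.filter_subset _ _) h1, gle_mono (Finset.filter_subset _ _) h2⟩
  rcases hb with hb | hb
  · left
    refine lt_of_lt_of_le hb (Finset.card_le_card ?_)
    intro u hu
    simp only [mem_filter, mem_univ, true_and] at hu ⊢
    exact gle_mono (Finset.filter_subset _ _) hu
  · right
    refine lt_of_lt_of_le hb (Finset.card_le_card ?_)
    intro u hu
    simp only [mem_filter, mem_univ, true_and] at hu ⊢
    exact gle_mono (Finset.filter_subset _ _) hu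

/-- A path inside a set which contains all upper bounds of its elements. -/
theorem gle_res_of_up {n : ℕ} {E : Finset (Fin n × Fin n)} {S : Finset (Fin n)} {x z : Fin n}
    (h : gle E x z) (hx : x ∈ S) (hS : ∀ u, gle E x u → u ∈ S) : gle (res E S) x z := by
  induction h with
  | refl => exact Relation.ReflTransGen.refl
  | tail h1 h2 ih =>
    refine ih.tail ?_
    simp only [res, mem_filter]
    exact ⟨h2, hS _ h1, hS _ (h1.tail h2)⟩

theorem detu_main (hFK : S_FK) (hFOREST : S_FOREST) (hYREM : S_YREM) (hELIM : S_ELIM)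
    (hUNREL : S_UNREL) : S_DETU := by
  intro n K T κ E hE hT hNN hStar
  set N := NK E K with hN
  -- the elements comparable with a member of BK
  set M : Finset (Fin n) := univ.filter (fun x => ∃ b, BK E K b ∧ (gle E x b ∨ gle E b x)) with hM
  have hrefl : ∀ x, gle E x x := fun x => Relation.ReflTransGen.refl
  have htrans : ∀ x y z, gle E x y → gle E y z → gle E x z := fun x y z h1 h2 => h1.trans h2
  have hMN : ∀ x ∈ M, ∀ u, gle E x u → u ∈ N := by
    intro x hx u hu
    simp only [hM, mem_filter, mem_univ, true_and] at hx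
    obtain ⟨b, hb, h | h⟩ := hx
    · simp only [hN, NK, mem_filter, mem_univ, true_and]
      exact ⟨x, b, hb, hu, h⟩
    · simp only [hN, NK, mem_filter, mem_univ, true_and]
      exact ⟨b, b, hb, h.trans hu, hrefl b⟩
  -- elimination
  obtain ⟨Y, hYN, hfor, hfar⟩ := hELIM n E (blk n T) N (3 * T) hE (by
    intro S hS hne x hx hcard
    have h1 := hStar S hne (by
      calc ((S.card : ℕ) : ℝ) ≤ (N.card : ℝ) := by exact_mod_cast Finset.card_le_card hS
        _ ≤ κ * n := hNN) x hx hcard
    have h2 : (6 * (3 * T) + 2) * x = (18 * T + 2) * x := by ring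
    rw [h2]
    exact h1)
  have hbl : ∀ a b : Fin n, a ≤ b → blk n T a ≤ blk n T b := by
    intro a b hab
    exact Nat.div_le_div_right (Nat.mul_le_mul_right T hab)
  have hblT : ∀ a : Fin n, blk n T a < T := by
    intro a
    have hn : 0 < n := a.pos
    have : (a : ℕ) * T < T * n := by
      rw [Nat.mul_comm T n]
      exact Nat.mul_lt_mul_of_pos_right a.2 hT
    exact Nat.div_lt_of_lt_mul (by rw [Nat.mul_comm n T]; exact this)
  have hun : Unrel E N Y := hUNREL n E (blk n T) N Y T hE hbl hblT hfar
  have hrevN : Rev (gle (res E N)) (IncOn E N) (2 * 4 + 2) :=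
    hYREM n E N Y 4 hE hYN (by norm_num) hun (hFOREST n E (N \ Y) hE hfor)
  have hA : Rev (gle E) (fun x y => x ∈ M ∧ y ∈ M ∧ IncOn E N x y) (2 * 4 + 2) :=
    ext_main (Fin n) (gle E) (gle (res E N)) (fun x => x ∈ M) (IncOn E N) _
      hrefl htrans (fun x y hx _ hxy =>
        gle_res_of_up hxy (hMN x hx x (hrefl x)) (hMN x hx)) hrevN
  have hUp : ∀ x, x ∉ M → (univ.filter (fun u => gle E x u)).card ≤ K ∧
      (univ.filter (fun u => gle E u x)).card ≤ K := by
    intro x hx
    by_contra hcon
    apply hx
    simp only [hM, mem_filter, mem_univ, true_and]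
    refine ⟨x, ?_, Or.inl (hrefl x)⟩
    by_contra h
    apply hcon
    simp only [BK, not_or, not_lt] at h
    exact h
  have hUp2 : ∀ x, x ∉ M → ∀ u, (gle E x u ∨ gle E u x) →
      (univ.filter (fun w => gle E w u)).card ≤ K ∧
      (univ.filter (fun w => gle E u w)).card ≤ K := by
    intro x hx u hu
    by_contra hcon
    apply hx
    simp only [hM, mem_filter, mem_univ, true_and]
    refine ⟨u, ?_, hu⟩
    by_contra h
    apply hcon
    simp only [BK, not_or, not_lt] at h
    exact ⟨h.2, h.1⟩
  have hB : Rev (gle E) (fun x y => x ∉ M ∧ ¬ gle E x y) (FK K) :=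
    hFK (Fin n) (gle E) K (fun x => x ∉ M) hrefl htrans
      (fun x hx => (hUp x hx).1)
      (fun x hx u hu => (hUp2 x hx u (Or.inl hu)).1)
  have hC : Rev (gle E) (fun x y => y ∉ M ∧ ¬ gle E x y) (FK K) := by
    apply flip_main (Fin n)
    exact hFK (Fin n) (fun x y => gle E y x) K (fun x => x ∉ M) hrefl
      (fun x y z h1 h2 => h2.trans h1)
      (fun x hx => (hUp x hx).2)
      (fun x hx u hu => (hUp2 x hx u (Or.inr hu)).2)
  have hall := uni_main (Fin n) (gle E) _ _ _ _ (uni_main (Fin n) (gle E) _ _ _ _ hB hC) hA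
  have hfinal := fin_main n _ E hE (by omega) (Rev_mono (Y := fun x y => ¬ gle E x y ∧ ¬ gle E y x)
    (by
      rintro x y ⟨h1, h2⟩
      by_cases hx : x ∈ M
      · by_cases hy : y ∈ M
        · right
          refine ⟨hx, hy, hMN x hx x (hrefl x), hMN y hy y (hrefl y), ?_, ?_⟩
          · exact fun h => h1 (gle_mono (Finset.filter_subset _ _) h)
          · exact fun h => h2 (gle_mono (Finset.filter_subset _ _) h)
        · left; right
          exact ⟨hy, h1⟩
      · left; left
        exact ⟨hx, h1⟩) hall)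
  have hk : FK K + FK K + (2 * 4 + 2) = 2 * FK K + 10 := by ring
  rw [hk] at hfinal
  exact hfinal

end Pool.Agent.H958.RL
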