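import Mathlib
import Pool.Agent.H958.RL.Stm2
import Pool.Agent.H958.RO.Goal
import Pool.Graph.R_seed8.W657.RD.PBas

/-!
# Project RL: the final assembly
-/

set_option autoImplicit false

namespace Pool.Agent.H958.RL

open Finset Filter Topology
open scoped Classical
open Pool.Agent.W830.RD (Om gle Pr Rlz S_PBAS)
open Pool.Agent.H958.RO (Rev dimG fin_main low_det Rev_mono S_PSUB)

/-- There is a realiser. -/
theorem exists_rlz (hU : S_UGREEDY) {n : ℕ} {E : Finset (Fin n × Fin n)} (hE : E ⊆ Om n) :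
    ∃ k, Rlz (gle E) k := by
  obtain ⟨k, hk⟩ := exists_nat_gt (((n : ℝ) + 1) * (2 * Real.log n))
  have h1 := hU n n (k + 1) E hE (fun x => by
    refine (Finset.card_le_univ _).trans ?_
    rw [Fintype.card_fin]) (by push_cast; linarith)
  exact ⟨k + 1, fin_main n _ E hE (by omega) (Rev_mono (fun x y h => h.1) h1)⟩

theorem dimG_mem (hU : S_UGREEDY) {n : ℕ} {E : Finset (Fin n × Fin n)} (hE : E ⊆ Om n) :
    Rlz (gle E) (dimG E) :=
  Nat.sInf_mem (exists_rlz hU hE)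

theorem log_lt_self {n : ℕ} (hn : 1 ≤ n) : Real.log n < n := by
  have h0 : (0 : ℝ) < n := by exact_mod_cast hn
  have := Real.log_le_sub_one_of_pos h0
  linarith

theorem pbas {c : ℝ} {n : ℕ} (h1 : 1 ≤ c) (h2 : c ≤ Real.log n) : 0 < c / n ∧ c / n < 1 := by
  have hn : 1 ≤ n := by
    by_contra hcon
    have h0 : n = 0 := by omega
    rw [h0] at h2
    simp at h2
    linarith
  have h3 := log_lt_self hn
  have h0 : (0 : ℝ) < n := by exact_mod_cast hn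
  exact ⟨div_pos (by linarith) h0, (div_lt_one h0).2 (by linarith)⟩

theorem exp_half_lt_two : Real.exp (1 / 2) < 2 := by
  have h1 : Real.exp (1 / 2) ^ 2 < 2 ^ 2 := by
    rw [← Real.exp_nat_mul]
    have := Real.exp_one_lt_d9
    norm_num at this ⊢
    linarith
  exact lt_of_pow_lt_pow_left₀ 2 (by norm_num) h1

/-- The lower bound for one exponent function. -/
theorem lower (hU : S_UGREEDY) (hP : S_PSUB) (hLB : S_LBALL) (hD : S_DIAG) :
    ∃ β : ℝ → ℝ, (∀ c, 1 ≤ c → 0 < β c) ∧ Tendsto β atTop (𝓝 1) ∧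
    ∀ c : ℕ → ℝ, (∀ᶠ n in atTop, 1 ≤ c n ∧ c n ≤ Real.log n) → ∀ η' : ℝ, 0 < η' →
      ∀ᶠ n in atTop, Pr (c n / n) n (fun E => (dimG E : ℝ) < Real.exp (β (c n) * c n)) ≤ η' := by
  refine hD (fun n c y => Pr (c / n) n (fun E => (dimG E : ℝ) < Real.exp y)) ?_ ?_
  · intro η' hη'
    have hlim : Tendsto (fun n : ℕ => Real.log n / n) atTop (𝓝 0) := by
      have h1 : Tendsto (fun x : ℝ => Real.log x / x) atTop (𝓝 0) :=
        (Real.isLittleO_log_id_atTop).tendsto_div_nhds_zero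
      exact h1.comp tendsto_natCast_atTop_atTop
    obtain ⟨N0, hN0⟩ := eventually_atTop.1 ((hlim.eventually (gt_mem_nhds hη')).and
      (eventually_ge_atTop 2))
    refine ⟨N0, fun n hn c hc1 hc2 => ?_⟩
    obtain ⟨h1, h2⟩ := hN0 n hn
    obtain ⟨hp, hp1⟩ := pbas hc1 hc2
    have hB := Pool.Agent.W657.RD.PBas.main (c / n) n hp hp1
    have hn0 : (0 : ℝ) < n := by exact_mod_cast (by omega : 0 < n)
    refine (hB.2.2.1 _ (fun E => {((⟨0, by omega⟩ : Fin n), (⟨1, by omega⟩ : Fin n))} ⊆ E)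
      (fun E hE h => low_det h2 hE ?_)).trans ?_
    · have h3 : (dimG E : ℝ) < 2 := lt_trans h exp_half_lt_two
      have h4 : dimG E < 2 := by exact_mod_cast h3
      exact ⟨dimG E, by omega, dimG_mem hU hE⟩
    · rw [hP (c / n) n _ hp hp1 (by
        rw [Finset.singleton_subset_iff]
        simp only [Om, mem_filter, mem_univ, true_and]
        exact Nat.zero_lt_one)]
      rw [Finset.card_singleton, pow_one]
      exact (div_le_div_of_nonneg_right hc2 hn0.le).trans h1.le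
  · intro ε hε hε2
    obtain ⟨c0, hc0, h⟩ := hLB ε hε hε2
    refine ⟨c0, hc0, fun η' hη' => ?_⟩
    obtain ⟨N0, hN0⟩ := h η' hη'
    refine ⟨N0, fun n hn c hc1 hc2 => ?_⟩
    obtain ⟨hp, hp1⟩ := pbas (hc0.trans hc1) hc2
    have hB := Pool.Agent.W657.RD.PBas.main (c / n) n hp hp1
    refine (hB.2.2.1 _ _ (fun E hE h => ?_)).trans (hN0 n hn c hc1 hc2)
    exact ⟨dimG E, le_of_lt h, dimG_mem hU hE⟩

/-- The upper bound for one exponent function. -/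
theorem upper (hUP : S_UPALL) (hUS : S_UPSM) (hD : S_DIAGU) :
    ∃ γ : ℝ → ℝ, (∀ c, 1 ≤ c → 0 < γ c) ∧ Tendsto γ atTop (𝓝 1) ∧
    ∀ c : ℕ → ℝ, (∀ᶠ n in atTop, 1 ≤ c n ∧ c n ≤ Real.log n) → ∀ η' : ℝ, 0 < η' →
      ∀ᶠ n in atTop, Pr (c n / n) n (fun E => Real.exp (γ (c n) * c n) < (dimG E : ℝ)) ≤ η' := by
  refine hD (fun n c y => Pr (c / n) n (fun E => Real.exp y < (dimG E : ℝ))) ?_ ?_ ?_
  · intro n c y y' hc1 hc2 hy
    obtain ⟨hp, hp1⟩ := pbas hc1 hc2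
    have hB := Pool.Agent.W657.RD.PBas.main (c / n) n hp hp1
    exact hB.2.2.1 _ _ (fun E hE h => lt_of_le_of_lt (Real.exp_le_exp.2 hy) h)
  · intro C1 hC1
    obtain ⟨M, hM, h⟩ := hUS C1 hC1
    refine ⟨M, hM, fun η' hη' => ?_⟩
    obtain ⟨N0, hN0⟩ := h η' hη'
    exact ⟨N0, fun n hn c hc1 hc2 _ => hN0 n hn c hc1 hc2⟩
  · exact hUP

/-- The final statement. -/
def S_GOAL : Prop := ∃ β γ : ℝ → ℝ, (∀ c, 1 ≤ c → 0 < β c) ∧ (∀ c, 1 ≤ c → 0 < γ c) ∧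
  Tendsto β atTop (𝓝 1) ∧ Tendsto γ atTop (𝓝 1) ∧
  ∀ c : ℕ → ℝ, (∀ᶠ n in atTop, 1 ≤ c n ∧ c n ≤ Real.log n) →
    Tendsto (fun n : ℕ => Pr (c n / n) n (fun E =>
      Real.exp (β (c n) * c n) ≤ (dimG E : ℝ) ∧ (dimG E : ℝ) ≤ Real.exp (γ (c n) * c n)))
      atTop (𝓝 1)

theorem goal_main (hU : S_UGREEDY) (hP : S_PSUB) (hLB : S_LBALL) (hD : S_DIAG)
    (hUP : S_UPALL) (hUS : S_UPSM) (hDU : S_DIAGU) : S_GOAL := by
  obtain ⟨β, hβ0, hβ1, hβ⟩ := lower hU hP hLB hD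
  obtain ⟨γ, hγ0, hγ1, hγ⟩ := upper hUP hUS hDU
  refine ⟨β, γ, hβ0, hγ0, hβ1, hγ1, fun c hc => ?_⟩
  rw [Metric.tendsto_atTop']
  intro δ hδ
  obtain ⟨N, hN⟩ := eventually_atTop.1
    (((hβ c hc (δ / 3) (by positivity)).and (hγ c hc (δ / 3) (by positivity))).and hc)
  refine ⟨N, fun n hn => ?_⟩
  obtain ⟨⟨h1, h2⟩, h3, h4⟩ := hN n hn.le
  obtain ⟨hp, hp1⟩ := pbas h3 h4
  obtain ⟨b1, b2, b3, b4, b5, b6⟩ := Pool.Agent.W657.RD.PBas.main (c n / n) n hp hp1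
  set Q : Finset (Fin n × Fin n) → Prop := fun E =>
    Real.exp (β (c n) * c n) ≤ (dimG E : ℝ) ∧ (dimG E : ℝ) ≤ Real.exp (γ (c n) * c n) with hQ
  have h5 := b5 Q
  have h6 : Pr (c n / n) n (fun E => ¬ Q E) ≤
      Pr (c n / n) n (fun E => (dimG E : ℝ) < Real.exp (β (c n) * c n)) +
      Pr (c n / n) n (fun E => Real.exp (γ (c n) * c n) < (dimG E : ℝ)) := by
    refine (b3 _ (fun E => (dimG E : ℝ) < Real.exp (β (c n) * c n) ∨
      Real.exp (γ (c n) * c n) < (dimG E : ℝ)) ?_).trans (b4 _ _)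
    intro E hE h
    simp only [hQ, not_and_or, not_le] at h
    exact h
  have h7 := b2 (fun E => ¬ Q E)
  rw [Real.dist_eq, abs_lt]
  constructor <;> linarith

end Pool.Agent.H958.RL
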