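import Mathlib
import Pool.Agent.H958.RL.Stm2
import Pool.Agent.H958.RL.All1
import Pool.Agent.H958.RL.Main
import Pool.Agent.H958.RL.Detu
import Pool.Agent.H958.RO.Main
import Pool.Agent.H675.RL.Col
import Pool.Agent.H675.RL.Hcol
import Pool.Agent.H59.RL.Perm
import Pool.Agent.H675.RL.FK
import Pool.Agent.H784.RL.FKnum
import Pool.Agent.H102.RL.Nloc
import Pool.Agent.H404.RL.Gdiff
import Pool.Agent.H909.RL.Mono
import Pool.Agent.H703.RL.Gconc
import Pool.Agent.H806.RL.Mom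
import Pool.Agent.H935.RL.Exrefl
import Pool.Agent.H415.RL.En
import Pool.Agent.H291.RL.Enb
import Pool.Agent.H828.RL.Smallu
import Pool.Agent.H284.RL.Staru
import Pool.Agent.H94.RL.Upmid
import Pool.Agent.H784.RL.Upall
import Pool.Agent.H746.RL.Upsm
import Pool.Agent.H234.RL.Diagu

/-!
# Project RL: the second part, assembled
-/

set_option autoImplicit false

namespace Pool.Agent.H958.RL

open Pool.Agent.H958.RO in
theorem up_all : S_UPALL ∧ S_UPSM := by
  -- project RO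
  have hPSUB : S_PSUB := Pool.Agent.H603.RO.Cheb.main1
  have hCHEB : S_CHEB := Pool.Agent.H603.RO.Cheb.main2
  have hCOUNT : S_COUNT :=
    Pool.Agent.H264.RO.Count.main Pool.Agent.H695.RO.Hand.main Pool.Agent.H947.RO.Par.main
  have hELIM : S_ELIM := Pool.Agent.H84.RO.Elim.main hCOUNT Pool.Agent.H32.RO.Leaf.main
    Pool.Agent.H358.RO.Ball.main
  have hFOREST : S_FOREST := Pool.Agent.H553.RO.Forest.main Pool.Agent.H922.RO.Addr.main
  have hDET : S_DET := det_main Pool.Agent.H397.RO.Step.main hFOREST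
    Pool.Agent.H729.RO.YRem.main hELIM Pool.Agent.H407.RO.Unrel.main
    Pool.Agent.H195.RO.Good.main Pool.Agent.H155.RO.Inn.main
  have hCNT : S_CNT := Pool.Agent.H358.RO.Cnt.main
  have hUBS : S_UBS := Pool.Agent.H92.RO.Ubs.main hPSUB
  have hTERM : S_TERM := Pool.Agent.H349.RO.Term.main
  have hSTAR : S_STAR := Pool.Agent.H52.RO.Star.main hUBS hTERM hCNT
  have hLLN : S_LLN := Pool.Agent.H282.RO.Lln.main hCHEB Pool.Agent.H278.RO.Pairs.main
  have hCOVER : S_COVER :=
    Pool.Agent.H94.RO.Cover.main Pool.Agent.H828.RO.CovA.main Pool.Agent.H763.RO.CovB.main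
  have hSMALL : S_SMALL :=
    Pool.Agent.H975.RO.Small.main hLLN Pool.Agent.H935.RO.MonCard.main hCOVER
  -- project RL
  have hFK : S_FK := Pool.Agent.H675.RL.FK.main Pool.Agent.H675.RL.Col.main
    Pool.Agent.H675.RL.Hcol.main Pool.Agent.H59.RL.Perm.main
  have hDETU : S_DETU := detu_main hFK hFOREST Pool.Agent.H729.RO.YRem.main hELIM
    Pool.Agent.H407.RO.Unrel.main
  have hGCONC : S_GCONC := Pool.Agent.H703.RL.Gconc.main Pool.Agent.H397.RL.Es.main
    Pool.Agent.H404.RL.Gdiff.main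
  have hMONO : S_MONO := Pool.Agent.H909.RL.Mono.main
  have hEN : S_EN := Pool.Agent.H415.RL.En.main Pool.Agent.H806.RL.Mom.main
    Pool.Agent.H935.RL.Exrefl.main
  have hENB : S_ENB := Pool.Agent.H291.RL.Enb.main hEN
  have hSMALLU : S_SMALLU := Pool.Agent.H828.RL.Smallu.main hENB Pool.Agent.H102.RL.Nloc.main
    gle_main hGCONC hMONO hSMALL
  have hSTARU : S_STARU := Pool.Agent.H284.RL.Staru.main hUBS hCNT hTERM
  have hUPMID : S_UPMID := Pool.Agent.H94.RL.Upmid.main hDETU hSTARU hSMALLU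
    Pool.Agent.H784.RL.FKnum.main
  have hUPALL : S_UPALL := Pool.Agent.H784.RL.Upall.main hUPMID up_log
  have hUPSM : S_UPSM := Pool.Agent.H746.RL.Upsm.main hDET hSTAR hSMALL hMONO
  exact ⟨hUPALL, hUPSM⟩

theorem goal : S_GOAL :=
  goal_main Pool.Agent.H88.RL.Ugreedy.main Pool.Agent.H603.RO.Cheb.main1 lb_all
    Pool.Agent.H120.RL.Diag.main up_all.1 up_all.2 Pool.Agent.H234.RL.Diagu.main

end Pool.Agent.H958.RL
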